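import Pool.Agent.Helper57.KD3.Count
import Pool.Agent.Helper33.KD4.St.WH

/-! KD project (MP_019250_an), Part IV, piece KD4-7c (HALF). -/

namespace KD.IV

open MeasureTheory Set Filter Topology KD.III

variable {d : ℕ}

theorem isCompact_Q1 : IsCompact (Q1 d) := by
  have h : Q1 d = Icc (-1 : ℝ) 0 ×ˢ (Metric.closedBall (0 : Vd d) 1 ×ˢ
      Metric.closedBall (0 : Vd d) 1) := by
    ext p
    simp only [Q1, mem_ofPred_eq, mem_prod, mem_Icc, Metric.mem_closedBall, dist_zero_right]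
    tauto
  rw [h]
  exact isCompact_Icc.prod ((isCompact_closedBall 0 1).prod (isCompact_closedBall 0 1))

/-- real cells of the box lie in `Q1` -/
theorem RC_mem_Q1 {s : ℝ} {nB K : ℕ} (hnB : ((1 / 2 : ℝ) ^ nB) ^ (2 * s) ≤ 1 / 2)
    {c : Cell d} (hc : c ∈ Box s K) {p : ℝ × Vd d × Vd d}
    (hp : p ∈ RC (-1 / 2) (((1 / 2 : ℝ) ^ nB) ^ (2 * s) / tau s K)
      ((1 / 2 : ℝ) ^ nB * (1 / 2) ^ K) c) : p ∈ Q1 d := by
  obtain ⟨⟨hc0, hc1⟩, hcx, hcv⟩ := hc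
  obtain ⟨h1, h2, h3, h4⟩ := hp
  set V : ℝ := (1 / 2 : ℝ) ^ nB with hV
  have hVp : 0 < V := by positivity
  have hV1 : V ≤ 1 := pow_le_one₀ (by norm_num) (by norm_num)
  set W : ℝ := V ^ (2 * s) with hW
  have hWp : 0 < W := Real.rpow_pos_of_pos hVp _
  have hτ : (0 : ℝ) < tau s K := by exact_mod_cast tau_pos s K
  have hτ1 : (1 : ℝ) ≤ tau s K := by exact_mod_cast tau_pos s K
  set α : ℝ := W / tau s K with hα
  have hαp : 0 < α := div_pos hWp hτ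
  have hατ : α * tau s K = W := by rw [hα]; field_simp
  have hαW : α ≤ W := by rw [hα]; exact div_le_self hWp.le hτ1
  have h2K : (0 : ℝ) < 2 ^ K := by positivity
  set β : ℝ := V * (1 / 2) ^ K with hβ
  have hβp : 0 < β := by positivity
  have hβρ : β * 2 ^ K = V := by
    rw [hβ, mul_assoc, ← mul_pow]; norm_num
  have hc0' : (0 : ℝ) ≤ c.1 := by exact_mod_cast hc0
  have hc1' : (c.1 : ℝ) + 1 ≤ tau s K := by exact_mod_cast hc1
  have hv0 : ∀ i, (0 : ℝ) ≤ c.2.2 i := fun i => by exact_mod_cast (hcv i).1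
  have hv1 : ∀ i, (c.2.2 i : ℝ) + 1 ≤ 2 ^ K := fun i => by
    have := (hcv i).2
    unfold rho at this
    exact_mod_cast this
  have hx0 : ∀ i, (0 : ℝ) ≤ c.2.1 i := fun i => by exact_mod_cast (hcx i).1
  have hx1 : ∀ i, (c.2.1 i : ℝ) + 1 ≤ tau s K * 2 ^ K := fun i => by
    have := (hcx i).2
    unfold XX rho at this
    exact_mod_cast this
  have ht : p.1 ≤ 0 := by
    have : α * (c.1 + 1) ≤ W := by rw [← hατ]; exact mul_le_mul_of_nonneg_left hc1' hαp.le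
    nlinarith
  have ht' : -1 ≤ p.1 := by
    have : 0 ≤ α * c.1 := by positivity
    linarith
  refine ⟨ht', ht, ?_, ?_⟩
  · rw [pi_norm_le_iff_of_nonneg zero_le_one]
    intro i
    obtain ⟨a1, a2⟩ := h3 i
    beta_reduce at a1 a2
    have e1 : 0 ≤ α * β * c.2.1 i := mul_nonneg (mul_pos hαp hβp).le (hx0 i)
    have e2 : 0 ≤ (p.1 - (-1 / 2 + α * c.1)) * (β * c.2.2 i) :=
      mul_nonneg h1 (mul_nonneg hβp.le (hv0 i))
    have e3 : (p.1 - (-1 / 2 + α * c.1)) * (β * c.2.2 i) ≤ α * V := by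
      apply mul_le_mul h2 _ (mul_nonneg hβp.le (hv0 i)) hαp.le
      rw [← hβρ]
      exact mul_le_mul_of_nonneg_left (by linarith [hv1 i]) hβp.le
    have e4 : α * β * c.2.1 i + α * β ≤ W * V := by
      have : α * β * (c.2.1 i + 1) ≤ α * β * (tau s K * 2 ^ K) :=
        mul_le_mul_of_nonneg_left (hx1 i) (mul_pos hαp hβp).le
      have e : α * β * (tau s K * 2 ^ K) = W * V := by rw [← hατ, ← hβρ]; ring
      rw [e] at this
      linarith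
    have e5 : α * V ≤ W * V := mul_le_mul_of_nonneg_right hαW hVp.le
    have e6 : W * V ≤ 1 / 2 * 1 := mul_le_mul hnB hV1 hVp.le (by norm_num)
    rw [Real.norm_eq_abs, abs_le]
    constructor
    · linarith
    · linarith
  · rw [pi_norm_le_iff_of_nonneg zero_le_one]
    intro i
    obtain ⟨a1, a2⟩ := h4 i
    beta_reduce at a1 a2
    have e1 : 0 ≤ β * c.2.2 i := mul_nonneg hβp.le (hv0 i)
    have e2 : β * (c.2.2 i + 1) ≤ V := by
      rw [← hβρ]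
      exact mul_le_mul_of_nonneg_left (hv1 i) hβp.le
    rw [Real.norm_eq_abs, abs_le]
    constructor
    · linarith
    · linarith

/-- diameter of the real cells of the box -/
theorem RC_dist {s : ℝ} {nB K : ℕ} {δ : ℝ}
    (hα : ((1 / 2 : ℝ) ^ nB) ^ (2 * s) / tau s K < δ) (hβ : (1 / 2 : ℝ) ^ nB * (1 / 2) ^ K < δ)
    {c : Cell d} (hc : c ∈ Box s K) {p q : ℝ × Vd d × Vd d}
    (hp : p ∈ RC (-1 / 2) (((1 / 2 : ℝ) ^ nB) ^ (2 * s) / tau s K)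
      ((1 / 2 : ℝ) ^ nB * (1 / 2) ^ K) c)
    (hq : q ∈ RC (-1 / 2) (((1 / 2 : ℝ) ^ nB) ^ (2 * s) / tau s K)
      ((1 / 2 : ℝ) ^ nB * (1 / 2) ^ K) c) : dist p q < δ := by
  obtain ⟨⟨hc0, hc1⟩, hcx, hcv⟩ := hc
  obtain ⟨h1, h2, h3, h4⟩ := hp
  obtain ⟨g1, g2, g3, g4⟩ := hq
  set V : ℝ := (1 / 2 : ℝ) ^ nB with hV
  have hVp : 0 < V := by positivity
  have hV1 : V ≤ 1 := pow_le_one₀ (by norm_num) (by norm_num)
  set W : ℝ := V ^ (2 * s) with hW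
  have hWp : 0 < W := Real.rpow_pos_of_pos hVp _
  have hτ : (0 : ℝ) < tau s K := by exact_mod_cast tau_pos s K
  set α : ℝ := W / tau s K with hαd
  have hαp : 0 < α := div_pos hWp hτ
  have h2K : (0 : ℝ) < 2 ^ K := by positivity
  set β : ℝ := V * (1 / 2) ^ K with hβd
  have hβp : 0 < β := by positivity
  have hδ : 0 < δ := hβp.trans hβ
  have hβρ : β * 2 ^ K = V := by
    rw [hβd, mul_assoc, ← mul_pow]; norm_num
  have hv0 : ∀ i, (0 : ℝ) ≤ c.2.2 i := fun i => by exact_mod_cast (hcv i).1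
  have hv1 : ∀ i, (c.2.2 i : ℝ) + 1 ≤ 2 ^ K := fun i => by
    have := (hcv i).2
    unfold rho at this
    exact_mod_cast this
  have hαV : α * V ≤ α := mul_le_of_le_one_right hαp.le hV1
  have e0 : ∀ i, α * (β * c.2.2 i) + α * β ≤ α := by
    intro i
    have : α * (β * (c.2.2 i + 1)) ≤ α * (β * 2 ^ K) :=
      mul_le_mul_of_nonneg_left (mul_le_mul_of_nonneg_left (hv1 i) hβp.le) hαp.le
    rw [hβρ] at this
    linarith
  refine max_lt ?_ (max_lt ?_ ?_)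
  · rw [Real.dist_eq, abs_lt]
    constructor <;> linarith
  · rw [dist_pi_lt_iff hδ]
    intro i
    obtain ⟨a1, a2⟩ := h3 i
    obtain ⟨b1, b2⟩ := g3 i
    beta_reduce at a1 a2 b1 b2
    have hvb : 0 ≤ β * (c.2.2 i : ℝ) := mul_nonneg hβp.le (hv0 i)
    have p1 : 0 ≤ (p.1 - (-1 / 2 + α * c.1)) * (β * c.2.2 i) := mul_nonneg h1 hvb
    have p2 : (p.1 - (-1 / 2 + α * c.1)) * (β * c.2.2 i) ≤ α * (β * c.2.2 i) :=
      mul_le_mul_of_nonneg_right h2 hvb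
    have q1 : 0 ≤ (q.1 - (-1 / 2 + α * c.1)) * (β * c.2.2 i) := mul_nonneg g1 hvb
    have q2 : (q.1 - (-1 / 2 + α * c.1)) * (β * c.2.2 i) ≤ α * (β * c.2.2 i) :=
      mul_le_mul_of_nonneg_right g2 hvb
    have := e0 i
    rw [Real.dist_eq, abs_lt]
    constructor <;> linarith
  · rw [dist_pi_lt_iff hδ]
    intro i
    obtain ⟨a1, a2⟩ := h4 i
    obtain ⟨b1, b2⟩ := g4 i
    beta_reduce at a1 a2 b1 b2
    rw [Real.dist_eq, abs_lt]
    constructor <;> linarith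

/-- fine grids -/
theorem exists_fine {s : ℝ} (hs : 0 < s) (nB L : ℕ) {δ : ℝ} (hδ : 0 < δ) :
    ∃ K, L ≤ K ∧ ((1 / 2 : ℝ) ^ nB) ^ (2 * s) / tau s K < δ ∧
      (1 / 2 : ℝ) ^ nB * (1 / 2) ^ K < δ := by
  have hV1 : (1 / 2 : ℝ) ^ nB ≤ 1 := pow_le_one₀ (by norm_num) (by norm_num)
  have hV0 : 0 < (1 / 2 : ℝ) ^ nB := by positivity
  have hW1 : ((1 / 2 : ℝ) ^ nB) ^ (2 * s) ≤ 1 := Real.rpow_le_one hV0.le hV1 (by positivity)
  obtain ⟨G, hG⟩ := exists_nat_gt (1 / δ)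
  obtain ⟨L', -, hL'⟩ := tau_growth s hs G
  obtain ⟨N, hN⟩ := exists_pow_lt_of_lt_one hδ (show (1 / 2 : ℝ) < 1 by norm_num)
  refine ⟨(L + N) + L', by omega, ?_, ?_⟩
  · have h1 := hL' (L + N)
    have h2 : (1 : ℤ) ≤ tau s (L + N) := tau_pos s (L + N)
    have h3 : (G : ℤ) ≤ tau s ((L + N) + L') := by nlinarith [Int.natCast_nonneg G]
    have h4 : (G : ℝ) ≤ tau s ((L + N) + L') := by exact_mod_cast h3
    have h5 : (0 : ℝ) < tau s ((L + N) + L') := by exact_mod_cast tau_pos s _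
    rw [div_lt_iff₀ h5]
    have h6 : 1 < G * δ := by rwa [div_lt_iff₀ hδ] at hG
    nlinarith
  · calc (1 / 2 : ℝ) ^ nB * (1 / 2) ^ (L + N + L') ≤ 1 * (1 / 2) ^ N := by
          apply mul_le_mul hV1 _ (by positivity) zero_le_one
          exact pow_le_pow_of_le_one (by norm_num) (by norm_num) (by omega)
      _ < δ := by rw [one_mul]; exact hN

/-- **IV.7c HALF**: a continuous function is `≥ -1/4` on half of the cells or `≤ 1/4` on half of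
the cells, for a fine enough grid. -/
theorem HALF_pf {s : ℝ} (hs : 0 < s) (nB L : ℕ) (hnB : ((1 / 2 : ℝ) ^ nB) ^ (2 * s) ≤ 1 / 2)
    (F : ℝ → Vd d → Vd d → ℝ)
    (hF : ContinuousOn (fun p : ℝ × Vd d × Vd d => F p.1 p.2.1 p.2.2) (Q1 d)) :
    ∃ K, L ≤ K ∧
      (((Box s K : Set (Cell d)).ncard : ℝ) / 2 ≤
        (({c : Cell d | ∀ p ∈ RC (-1 / 2) (((1 / 2 : ℝ) ^ nB) ^ (2 * s) / tau s K)
          ((1 / 2 : ℝ) ^ nB * (1 / 2) ^ K) c, p ∈ Q1 d ∧ -1 / 4 ≤ F p.1 p.2.1 p.2.2} ∩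
            Box s K).ncard : ℝ) ∨
      ((Box s K : Set (Cell d)).ncard : ℝ) / 2 ≤
        (({c : Cell d | ∀ p ∈ RC (-1 / 2) (((1 / 2 : ℝ) ^ nB) ^ (2 * s) / tau s K)
          ((1 / 2 : ℝ) ^ nB * (1 / 2) ^ K) c, p ∈ Q1 d ∧ F p.1 p.2.1 p.2.2 ≤ 1 / 4} ∩
            Box s K).ncard : ℝ)) := by
  have huc := isCompact_Q1.uniformContinuousOn_of_continuous hF
  rw [Metric.uniformContinuousOn_iff] at huc
  obtain ⟨δ, hδ, hu⟩ := huc (1 / 2) (by norm_num)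
  obtain ⟨K, hK, hα, hβ⟩ := exists_fine hs nB L hδ
  refine ⟨K, hK, ?_⟩
  set A : Set (Cell d) := {c : Cell d | ∀ p ∈ RC (-1 / 2) (((1 / 2 : ℝ) ^ nB) ^ (2 * s) / tau s K)
          ((1 / 2 : ℝ) ^ nB * (1 / 2) ^ K) c, p ∈ Q1 d ∧ -1 / 4 ≤ F p.1 p.2.1 p.2.2} with hA
  set B : Set (Cell d) := {c : Cell d | ∀ p ∈ RC (-1 / 2) (((1 / 2 : ℝ) ^ nB) ^ (2 * s) / tau s K)
          ((1 / 2 : ℝ) ^ nB * (1 / 2) ^ K) c, p ∈ Q1 d ∧ F p.1 p.2.1 p.2.2 ≤ 1 / 4} with hB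
  have hcov : (Box s K : Set (Cell d)) ⊆ (A ∩ Box s K) ∪ (B ∩ Box s K) := by
    intro c hc
    by_cases h : ∀ p ∈ RC (-1 / 2) (((1 / 2 : ℝ) ^ nB) ^ (2 * s) / tau s K)
          ((1 / 2 : ℝ) ^ nB * (1 / 2) ^ K) c, -1 / 4 ≤ F p.1 p.2.1 p.2.2
    · left
      exact ⟨fun p hp => ⟨RC_mem_Q1 hnB hc hp, h p hp⟩, hc⟩
    · right
      refine ⟨fun q hq => ⟨RC_mem_Q1 hnB hc hq, ?_⟩, hc⟩
      push Not at h
      obtain ⟨p, hp, hpF⟩ := h
      have h1 := hu p (RC_mem_Q1 hnB hc hp) q (RC_mem_Q1 hnB hc hq) (RC_dist hα hβ hc hp hq)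
      rw [Real.dist_eq, abs_lt] at h1
      linarith [h1.1, h1.2]
  have hfin : (Box s K : Set (Cell d)).Finite := box_finite s K
  have hle : (Box s K : Set (Cell d)).ncard ≤ (A ∩ Box s K).ncard + (B ∩ Box s K).ncard :=
    (Set.ncard_le_ncard hcov ((hfin.subset inter_subset_right).union
      (hfin.subset inter_subset_right))).trans (Set.ncard_union_le _ _)
  have hle' : ((Box s K : Set (Cell d)).ncard : ℝ) ≤
      ((A ∩ Box s K).ncard : ℝ) + ((B ∩ Box s K).ncard : ℝ) := by exact_mod_cast hle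
  by_contra hcon
  push Not at hcon
  linarith [hcon.1, hcon.2]

end KD.IV
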